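import Pool.Agent.V11258.F1.Chain

set_option autoImplicit false

/-! Below a set of Gamma-value `1/2` every set agrees with a computable set on lower density
exactly `1/2`. -/

namespace Pool.Agent.Results.MP_f1effe_lc.GammaHalfAttained

open Filter Pool.Agent.Helper743 Pool.Agent.H448R3 Pool.Agent.V11258.F1

/-- Turing reducibility of sets of natural numbers, given by characteristic functions. -/
def Red (Y X : ℕ → Bool) : Prop :=
  TuringReducible (fun n => Part.some (if Y n then 1 else 0))
    (fun n => Part.some (if X n then 1 else 0))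

/-- The lower density of the set of agreements of `Y` and `A`. -/
noncomputable def lowerAgreement (Y A : ℕ → Bool) : ℝ :=
  liminf (fun n : ℕ => (((Finset.range n).filter (fun k => Y k = A k)).card : ℝ) / (n : ℝ)) atTop

/-- The coarse computability bound. -/
noncomputable def coarseBound (Y : ℕ → Bool) : ℝ :=
  sSup {d | ∃ C : ℕ → Bool, Computable C ∧ d = lowerAgreement Y C}

/-- The Gamma-value. -/
noncomputable def GammaValue (X : ℕ → Bool) : ℝ :=
  sInf {d | ∃ Y : ℕ → Bool, Red Y X ∧ d = coarseBound Y}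

theorem ratio_nonneg (Y A : ℕ → Bool) (n : ℕ) :
    0 ≤ (((Finset.range n).filter (fun k => Y k = A k)).card : ℝ) / (n : ℝ) := by positivity

theorem ratio_le_one (Y A : ℕ → Bool) (n : ℕ) :
    (((Finset.range n).filter (fun k => Y k = A k)).card : ℝ) / (n : ℝ) ≤ 1 := by
  refine div_le_one_of_le₀ ?_ (Nat.cast_nonneg _)
  have h := Finset.card_filter_le (Finset.range n) (fun k => Y k = A k)
  rw [Finset.card_range] at h
  exact_mod_cast h

theorem isBdd (Y A : ℕ → Bool) : IsBoundedUnder (· ≥ ·) atTop (fun n : ℕ =>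
    (((Finset.range n).filter (fun k => Y k = A k)).card : ℝ) / (n : ℝ)) :=
  isBoundedUnder_of ⟨0, fun n => ratio_nonneg Y A n⟩

theorem isCobdd (Y A : ℕ → Bool) : IsCoboundedUnder (· ≥ ·) atTop (fun n : ℕ =>
    (((Finset.range n).filter (fun k => Y k = A k)).card : ℝ) / (n : ℝ)) :=
  IsBoundedUnder.isCoboundedUnder_ge (isBoundedUnder_of ⟨1, fun n => ratio_le_one Y A n⟩)

theorem lower_nonneg (Y A : ℕ → Bool) : 0 ≤ lowerAgreement Y A :=
  le_liminf_of_le (isCobdd Y A) (Eventually.of_forall fun n => ratio_nonneg Y A n)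

theorem lower_le_one (Y A : ℕ → Bool) : lowerAgreement Y A ≤ 1 :=
  liminf_le_of_frequently_le (Frequently.of_forall fun n => ratio_le_one Y A n) (isBdd Y A)

theorem coarse_nonneg (Y : ℕ → Bool) : 0 ≤ coarseBound Y := by
  refine le_csSup_of_le ⟨1, ?_⟩ ⟨fun _ => false, Computable.const false, rfl⟩ (lower_nonneg _ _)
  rintro d ⟨C, _, rfl⟩
  exact lower_le_one _ _

theorem gamma_le {X Y : ℕ → Bool} (h : Red Y X) : GammaValue X ≤ coarseBound Y := by
  refine csInf_le ⟨0, ?_⟩ ⟨Y, h, rfl⟩
  rintro d ⟨Y', _, rfl⟩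
  exact coarse_nonneg _

theorem card_er (Y A : ℕ → Bool) (n : ℕ) :
    ((Finset.range n).filter (fun k => Y k = A k)).card +
      er (fun x => bit (Y x)) (fun x => bit (A x)) n = n := by
  induction n with
  | zero => simp [er_zero]
  | succ n ih =>
    rw [er_succ, Finset.range_add_one, Finset.filter_insert]
    by_cases h : Y n = A n
    · rw [if_pos h, Finset.card_insert_of_notMem (by simp), if_pos (by rw [h])]
      omega
    · rw [if_neg h, if_neg (fun hh => h (bit_inj hh))]
      omega

theorem bit_eq (Y : ℕ → Bool) : (fun n => Part.some (if Y n then 1 else 0)) =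
    ((fun x => bit (Y x) : ℕ → ℕ) : ℕ →. ℕ) := by
  funext n
  have h : (if Y n then 1 else 0 : ℕ) = bit (Y n) := by
    unfold bit
    cases Y n <;> rfl
  rw [h]
  rfl

theorem red_iff (Y X : ℕ → Bool) : Red Y X ↔
    RecT {((fun x => bit (X x) : ℕ → ℕ) : ℕ →. ℕ)} (fun x => bit (Y x)) := by
  unfold Red
  rw [bit_eq, bit_eq, ← TR_iff]
  rfl

/-- the set coded by the complements of the binary values of `f` -/
def YY (f : ℕ → ℕ) (x : ℕ) : Bool := bt (f (Nat.log 4 x)) x == 0

theorem YY_rec {O : Set (ℕ →. ℕ)} {f : ℕ → ℕ} (hf : RecT O f) : RecT O (fun x => bit (YY f x)) := by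
  have hu : Computable fun x : ℕ => Nat.log 4 x + 1 := cadd log4_comp (Computable.const 1)
  have hΦ : Computable₂ fun (σ : List ℕ) (x : ℕ) => bit (bt (σ.getD (Nat.log 4 x) 0) x == 0) := by
    have h1 : Computable fun p : List ℕ × ℕ => p.1.getD (Nat.log 4 p.2) 0 :=
      (Primrec.list_getD 0).to_comp.comp Computable.fst (log4_comp.comp Computable.snd)
    exact cbit (cbeqN (bt_comp h1 Computable.snd) (Computable.const 0))
  have h1 := tr_pre hf hu hΦ
  have h2 : (fun x => bit (bt ((pre f (Nat.log 4 x + 1)).getD (Nat.log 4 x) 0) x == 0)) =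
      fun x => bit (YY f x) := by
    funext x
    rw [pre_getD (Nat.lt_succ_self _)]
    rfl
  rw [← h2]
  exact h1

theorem bt_le (m j : ℕ) : bt m j ≤ 1 := by
  unfold bt
  omega

/-- an infinitely often equal function computes a set of small coarse bound -/
theorem coarse_le {f : ℕ → ℕ} (hf : f ∈ Pool.Agent.V11258.IOE.IOE GG) : coarseBound (YY f) ≤ 1 / 4 := by
  refine csSup_le ⟨_, fun _ => false, Computable.const false, rfl⟩ ?_
  rintro d ⟨C, hC, rfl⟩
  refine liminf_le_of_frequently_le ?_ (isBdd _ _)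
  rw [frequently_atTop]
  intro N
  have hr : Computable fun s : ℕ => val (fun x => bit (C x)) (4 ^ (s + 1)) := by
    have h1 : Computable₂ fun (_ : ℕ) (x : ℕ) => bit (C x) := (cbit hC).comp Computable.snd
    exact val_comp h1 (pow4_comp.comp (cadd Computable.id (Computable.const 1)))
  have hb : ∀ x, bit (C x) ≤ 1 := by
    intro x
    unfold bit
    cases C x <;> simp
  obtain ⟨s, hs, hfs⟩ := hf _ hr (fun s => val_lt hb _) N
  refine ⟨4 ^ (s + 1), ?_, ?_⟩
  · have : s + 1 < 4 ^ (s + 1) := Nat.lt_pow_self (by norm_num)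
    omega
  · have hpos : (0 : ℝ) < ((4 ^ (s + 1) : ℕ) : ℝ) := by positivity
    rw [div_le_iff₀ hpos]
    have h1 : ((Finset.range (4 ^ (s + 1))).filter (fun k => YY f k = C k)) ⊆ Finset.range (4 ^ s) := by
      intro x hx
      obtain ⟨hx1, hx2⟩ := Finset.mem_filter.1 hx
      rw [Finset.mem_range] at hx1 ⊢
      by_contra hcon
      push Not at hcon
      have h4 : 0 < 4 ^ s := by positivity
      have hlog : Nat.log 4 x = s := (Nat.log_eq_iff (Or.inr ⟨by norm_num, by omega⟩)).2 ⟨hcon, hx1⟩
      unfold YY at hx2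
      rw [hlog, hfs, bt_val hb hx1] at hx2
      cases hCx : C x <;> rw [hCx] at hx2 <;> simp [bit] at hx2
    have h2 := Finset.card_le_card h1
    rw [Finset.card_range] at h2
    have h3 : (((Finset.range (4 ^ (s + 1))).filter (fun k => YY f k = C k)).card : ℝ) ≤ 4 ^ s := by
      exact_mod_cast h2
    refine h3.trans (le_of_eq ?_)
    push_cast
    rw [pow_succ (4 : ℝ) s]
    ring

/-- **Main theorem.** If `Γ(X) = 1/2` then every `Y ≤_T X` agrees with some computable set on lower
density exactly `1/2`. -/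
theorem result (X : ℕ → Bool) (hX : GammaValue X = 1 / 2) (Y : ℕ → Bool) (hY : Red Y X) :
    ∃ A : ℕ → Bool, Computable A ∧ lowerAgreement Y A = 1 / 2 := by
  have hno : ∀ f, RecT {((fun x => bit (X x) : ℕ → ℕ) : ℕ →. ℕ)} f → f ∉ Pool.Agent.V11258.IOE.IOE GG := by
    intro f hf hmem
    have h1 : Red (YY f) X := (red_iff _ _).2 (YY_rec hf)
    have h2 := gamma_le h1
    have h3 := coarse_le hmem
    rw [hX] at h2
    linarith
  obtain ⟨cw, hcw, hcode⟩ := exists_cw3
  obtain ⟨q, hq, j1, hj1⟩ := choice hno hcw hcode (y := fun x => bit (Y x)) (fun x => by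
    unfold bit; cases Y x <;> simp) ((red_iff _ _).1 hY)
  refine ⟨AA cw q, AA_comp hcw hq, ?_⟩
  have h1 := tendsto hj1
  refine Tendsto.liminf_eq (h1.congr ?_)
  intro n
  congr 1
  have h2 := card_er Y (AA cw q) n
  have h3 : ((((Finset.range n).filter (fun k => Y k = AA cw q k)).card +
      er (fun x => bit (Y x)) (fun x => bit (AA cw q x)) n : ℕ) : ℝ) = n := by rw [h2]
  push_cast at h3
  linarith

end Pool.Agent.Results.MP_f1effe_lc.GammaHalfAttained
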